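import Mathlib
import Pool.Agent.MP_d0c340_co.Main

/-!
# Neighborly polytopes with at most `d + 2⌊d/2⌋ + 1` vertices are inscribable

Main theorem (general form): a `k`-neighborly `d`-polytope (`1 ≤ k ≤ d`), simplicial or not, with at most
`d + 2k + 1` vertices is inscribable; in fact every realization becomes inscribed in the unit sphere after a
projective transformation that is admissible for the polytope.

Outline of the proof.  Write the vertices as vectors `v i = (1, p i)` of `ℝ^(d+1)`.  A projective
transformation making the polytope inscribed exists iff for some positive functional `w` (the new hyperplane at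
infinity) there is no linear dependency `y` for which the quadratic form
`∑ (y i / ⟨w, v i⟩) ⟨·, v i⟩²` is positive semidefinite and nonzero (Farkas lemma and Sylvester's law).
Neighborliness says that a nonzero dependency has at least `k + 1` negative entries, semidefiniteness that it has
at most `n - d - 1 ≤ 2k`.  If all `w` were bad, an approximate continuous selection of bad dependencies and
Brouwer's fixed point theorem (proved here) would produce a bad pair `(w, y)` in which `w` is a weighted mean of
functionals supporting faces spanned by the most negative vertices of `y`; for suitable weights this contradicts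
semidefiniteness.
-/

open Set Matrix

theorem Pool.Agent.Results.MP_d0c340_co.FewVertices.result (d k : ℕ) (hk : 1 ≤ k) (hkd : k ≤ d)
    (P : Set (MPd0c340.E d)) (hP : MPd0c340.IsPolytope P) (hN : MPd0c340.KNeighborly k P)
    (hn : (MPd0c340.vertices P).ncard ≤ d + 2 * k + 1) :
    MPd0c340.Inscribable P ∧
    ∃ A : Matrix (Fin (d + 1)) (Fin (d + 1)) ℝ, IsUnit A.det ∧
      (∀ x ∈ P, 0 < (A *ᵥ MPd0c340.hom x) 0) ∧
      MPd0c340.IsPolytope (MPd0c340.proj A '' P) ∧
      MPd0c340.CombEquiv P (MPd0c340.proj A '' P) ∧
      ∀ x ∈ MPd0c340.vertices (MPd0c340.proj A '' P), dist x 0 = 1 := by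
  obtain ⟨A, h1, h2, h3, h4, h5⟩ := MPd0c340.main hk hkd P hP hN hn
  exact ⟨⟨MPd0c340.proj A '' P, h3, h4, 0, 1, one_pos, h5⟩, A, h1, h2, h3, h4, h5⟩
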