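import Mathlib
import Pool.Agent.NI.Main

/-!
# A neighborly 5-polytope that is not inscribable

The polytope: the Veronese images in `ℝ^5` of the planar points `(i, i²)` and `(i, i² + 1/2)`, `0 ≤ i ≤ 22000`,
where every 50-th point of the first curve is pushed slightly along the edge to its successor.

Outline of the proof that no realization is inscribed.  Let `y_i`, `z_i` be the vertices of a realization as vectors
of `ℝ^6`.  The hexagonal facets say that the planes `[y_i y_{i+1} z_{i+1}]` and `[y_k y_{k+1} z_k]` (and
`[y_i z_i z_{i+1}]`, `[y_{k+1} z_k z_{k+1}]`) meet for all `i ≤ k`.  Trivectors live in a finite dimensional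
space, so on some block of 50 consecutive indices the same holds for `i > k`.  There the dependencies between
`y_i, y_{i+1}, z_i, z_{i+1}, y_k, y_{k+1}, z_k, z_{k+1}` are antisymmetric, which forces constant linear recurrences:
the vertices of the block form an orbit of a linear map `T`, and the pushed vertex lies on the line through the
virtual point `T⁻¹ y_1` and `y_1`.  Every quadric through the block contains `T⁻¹ y_1` (Cayley–Hamilton), so a
sphere through the vertices would contain three collinear points.
-/

theorem Pool.Agent.Results.MP_d0c340_co.NotInscribable.result :
    ∃ P : Set (MPd0c340.E 5), MPd0c340.IsPolytope P ∧ MPd0c340.Neighborly P ∧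
      ¬ MPd0c340.Inscribable P :=
  NI.main
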